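import Mathlib

set_option autoImplicit false

/-!
MP_717b2e_co, lower bound `3n - 7` for the diameter of the centered-flip graph.
-/

namespace Pool.Agent.Results.MP_717b2e_co.DiameterLowerBound

/-- Non-crossing perfect matchings of the `2n` points `0, …, 2n-1` on the circle (in circular
order), given by the partner function. -/
structure NCMatching (n : ℕ) where
  /-- the partner of a point -/
  partner : Fin (2 * n) → Fin (2 * n)
  invol : ∀ x, partner (partner x) = x
  noFix : ∀ x, partner x ≠ x
  noncross : ∀ x y, ¬ (x < y ∧ y < partner x ∧ partner x < partner y)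

/-- Length of a side with end points `x < y`: the smaller of the numbers of other edges on its
two sides (there are `(y-x-1)/2` edges on one side and `n-1-(y-x-1)/2` on the other). -/
def len (n x y : ℕ) : ℕ := min ((y - x - 1) / 2) (n - 1 - (y - x - 1) / 2)

/-- `M'` arises from `M` by the centered flip replacing the edges `ab`, `cd` by `bc`, `ad`
(`a < b < c < d`): the four sides have lengths summing to `n - 2`. -/
def CenteredFlip {n : ℕ} (M M' : NCMatching n) : Prop :=
  ∃ a b c d : Fin (2 * n), a < b ∧ b < c ∧ c < d ∧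
    M.partner a = b ∧ M.partner c = d ∧ M'.partner b = c ∧ M'.partner a = d ∧
    (∀ x, x ≠ a → x ≠ b → x ≠ c → x ≠ d → M'.partner x = M.partner x) ∧
    len n a b + len n b c + len n c d + len n a d = n - 2

/-- The centered-flip graph `H_n`. -/
def H (n : ℕ) : SimpleGraph (NCMatching n) where
  Adj M M' := M ≠ M' ∧ (CenteredFlip M M' ∨ CenteredFlip M' M)
  symm := ⟨fun _ _ h => ⟨h.1.symm, h.2.symm⟩⟩
  loopless := ⟨fun _ h => h.1 rfl⟩

/-- the weight of an even point whose partner is `g` steps further on the circle, times `2n` -/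
def W (n g : ℤ) : ℤ := if g < n then 3 * n - 7 * g else if g = n then 0 else 11 * n - 7 * g

/-- gap from `x` to `y` in circular order -/
def gap (n x y : ℤ) : ℤ := if x < y then y - x else 2 * n + y - x

/-- contribution of the point `x` with partner `y` -/
def V (n x y : ℕ) : ℤ := if x % 2 = 0 then W n (gap n x y) else 0

/-- the potential -/
def Psi {n : ℕ} (M : NCMatching n) : ℤ := ∑ x : Fin (2 * n), V n x (M.partner x)

theorem parity_aux {n : ℕ} (M : NCMatching n) (x : Fin (2 * n)) (h : x < M.partner x) :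
    ((M.partner x : ℕ) - (x : ℕ)) % 2 = 1 := by
  classical
  set y := M.partner x with hy
  -- points strictly between
  have hS : ∀ z ∈ Finset.Ioo x y, M.partner z ∈ Finset.Ioo x y := by
    intro z hz
    rw [Finset.mem_Ioo] at hz ⊢
    have h1 := M.noncross x z
    have hyx : M.partner y = x := by rw [hy, M.invol]
    have hne1 : M.partner z ≠ x := by
      intro h2
      have : z = y := by rw [hy, ← h2, M.invol]
      exact absurd hz.2 (by rw [this]; exact lt_irrefl _)
    have hne2 : M.partner z ≠ y := by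
      intro h2
      have h3 : M.partner (M.partner z) = M.partner y := by rw [h2]
      rw [M.invol, hyx] at h3
      exact absurd hz.1 (by rw [h3]; exact lt_irrefl _)
    constructor
    · by_contra hc
      have hlt : M.partner z < x := lt_of_le_of_ne (not_lt.mp hc) hne1
      have h4 := M.noncross (M.partner z) x
      apply h4
      rw [M.invol]
      exact ⟨hlt, hz.1, hz.2⟩
    · by_contra hc
      have hlt : y < M.partner z := lt_of_le_of_ne (not_lt.mp hc) (Ne.symm hne2)
      exact h1 ⟨hz.1, hz.2, hlt⟩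
  have hprod : ∏ z ∈ Finset.Ioo x y, (-1 : ℤ) = 1 := by
    apply Finset.prod_involution (fun z _ => M.partner z)
    · intro z hz; norm_num
    · intro z hz _; exact M.noFix z
    · intro z hz; exact hS z hz
    · intro z hz; exact M.invol z
  rw [Finset.prod_const, Fin.card_Ioo] at hprod
  have hev : Even ((y : ℕ) - (x : ℕ) - 1) := by
    by_contra hodd
    rw [Nat.not_even_iff_odd] at hodd
    rw [hodd.neg_one_pow] at hprod
    norm_num at hprod
  have hlt : (x : ℕ) < (y : ℕ) := h
  rcases hev with ⟨k, hk⟩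
  omega

theorem W_neg (n g : ℤ) : W n (2 * n - g) = - W n g := by
  unfold W
  split_ifs <;> omega

theorem W_lt {n g : ℤ} (h : g < n) : W n g = 3 * n - 7 * g := if_pos h

theorem W_self (n : ℤ) : W n n = 0 := by simp [W]

theorem W_sum {n a b c d : ℤ} (ha : 1 ≤ a) (hb : 1 ≤ b) (hc : 1 ≤ c) (hd : 1 ≤ d)
    (ha' : a ≤ n) (hb' : b ≤ n) (hc' : c ≤ n) (hd' : d ≤ n) (hs : a + b + c + d = 2 * n) :
    |W n a + W n b + W n c + W n d| ≤ 2 * n := by
  rw [abs_le]
  rcases lt_or_eq_of_le ha' with h1 | h1 <;> rcases lt_or_eq_of_le hb' with h2 | h2 <;>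
    rcases lt_or_eq_of_le hc' with h3 | h3 <;> rcases lt_or_eq_of_le hd' with h4 | h4 <;>
    first
      | (exfalso; omega)
      | (constructor <;>
          (first | rw [W_lt h1] | rw [h1, W_self]) <;>
          (first | rw [W_lt h2] | rw [h2, W_self]) <;>
          (first | rw [W_lt h3] | rw [h3, W_self]) <;>
          (first | rw [W_lt h4] | rw [h4, W_self]) <;> omega)

theorem V_odd {n x y : ℕ} (hx : x % 2 = 1) : V n x y = 0 := by
  unfold V; rw [if_neg (by omega)]

theorem V_lt {n x y : ℕ} (hx : x % 2 = 0) (h : x < y) : V n x y = W n ((y : ℤ) - x) := by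
  unfold V gap
  rw [if_pos hx, if_pos (by exact_mod_cast h)]

theorem V_gt {n x y : ℕ} (hx : x % 2 = 0) (h : y < x) : V n x y = - W n ((x : ℤ) - y) := by
  unfold V gap
  rw [if_pos hx, if_neg (by push Not; exact_mod_cast h.le), ← W_neg]
  congr 1; ring

theorem flip_bound {n : ℕ} (M M' : NCMatching n) (h : CenteredFlip M M') :
    |Psi M' - Psi M| ≤ 2 * n := by
  classical
  obtain ⟨a, b, c, d, hab, hbc, hcd, h1, h2, h3, h4, h5, h6⟩ := h
  have h1' : M.partner b = a := by rw [← h1, M.invol]
  have h2' : M.partner d = c := by rw [← h2, M.invol]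
  have h3' : M'.partner c = b := by rw [← h3, M'.invol]
  have h4' : M'.partner d = a := by rw [← h4, M'.invol]
  have pab := parity_aux M a (by rw [h1]; exact hab)
  have pcd := parity_aux M c (by rw [h2]; exact hcd)
  have pbc := parity_aux M' b (by rw [h3]; exact hbc)
  rw [h1] at pab
  rw [h2] at pcd
  rw [h3] at pbc
  have hsum : Psi M' - Psi M = ∑ x ∈ ({a, b, c, d} : Finset (Fin (2 * n))),
      (V n x (M'.partner x) - V n x (M.partner x)) := by
    unfold Psi
    rw [← Finset.sum_sub_distrib]
    symm
    apply Finset.sum_subset (Finset.subset_univ _)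
    intro x _ hx
    simp only [Finset.mem_insert, Finset.mem_singleton, not_or] at hx
    rw [h5 x hx.1 hx.2.1 hx.2.2.1 hx.2.2.2, sub_self]
  have hac : a < c := hab.trans hbc
  have had : a < d := hac.trans hcd
  have hbd : b < d := hbc.trans hcd
  rw [hsum, Finset.sum_insert (by simp [hab.ne, hac.ne, had.ne]),
    Finset.sum_insert (by simp [hbc.ne, hbd.ne]), Finset.sum_insert (by simp [hcd.ne]),
    Finset.sum_singleton, h1, h2, h3, h4, h1', h2', h3', h4']
  have e1 : (a : ℕ) < (b : ℕ) := hab
  have e2 : (b : ℕ) < (c : ℕ) := hbc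
  have e3 : (c : ℕ) < (d : ℕ) := hcd
  have e4 : (d : ℕ) < 2 * n := d.2
  have e5 : (a : ℕ) < (d : ℕ) := had
  generalize (a : ℕ) = a at *
  generalize (b : ℕ) = b at *
  generalize (c : ℕ) = c at *
  generalize (d : ℕ) = d at *
  clear hsum h1 h2 h3 h4 h1' h2' h3' h4' h5 hac had hbd hab hbc hcd
  -- the gaps
  have g1 : b - a ≤ n := by unfold len at h6; omega
  have g2 : c - b ≤ n := by unfold len at h6; omega
  have g3 : d - c ≤ n := by unfold len at h6; omega
  have g4 : 2 * n - (d - a) ≤ n := by unfold len at h6; omega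
  have key : |W n ((b : ℤ) - a) + W n ((c : ℤ) - b) + W n ((d : ℤ) - c)
      + W n (2 * n - ((d : ℤ) - a))| ≤ 2 * n := by
    apply W_sum <;> omega
  rw [W_neg] at key
  rcases Nat.mod_two_eq_zero_or_one a with ha | ha
  · have hb : b % 2 = 1 := by omega
    have hc : c % 2 = 0 := by omega
    have hd : d % 2 = 1 := by omega
    rw [V_odd hb, V_odd hb, V_odd hd, V_odd hd, V_lt ha e5, V_lt ha e1, V_gt hc e2, V_lt hc e3]
    rw [abs_le] at key ⊢
    constructor <;> linarith [key.1, key.2]
  · have hb : b % 2 = 0 := by omega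
    have hc : c % 2 = 1 := by omega
    have hd : d % 2 = 0 := by omega
    rw [V_odd ha, V_odd ha, V_odd hc, V_odd hc, V_lt hb e2, V_gt hb e1, V_gt hd e5, V_gt hd e3]
    rw [abs_le] at key ⊢
    constructor <;> linarith [key.1, key.2]

theorem adj_bound {n : ℕ} (M M' : NCMatching n) (h : (H n).Adj M M') :
    Psi M' - Psi M ≤ 2 * n := by
  rcases h.2 with h | h
  · exact le_trans (le_abs_self _) (flip_bound M M' h)
  · have := flip_bound M' M h
    rw [abs_sub_comm] at this
    exact le_trans (le_abs_self _) this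

theorem walk_bound {n : ℕ} {M M' : NCMatching n} (w : (H n).Walk M M') :
    Psi M' - Psi M ≤ 2 * n * w.length := by
  induction w with
  | nil => simp
  | cons h p ih =>
    have := adj_bound _ _ h
    rw [SimpleGraph.Walk.length_cons]
    push_cast
    linarith

/-- The matching `{0,1}, {2,3}, …`: all edges have length `0`. -/
def M0 (n : ℕ) : NCMatching n where
  partner x := ⟨if (x : ℕ) % 2 = 0 then x + 1 else x - 1, by have := x.2; split_ifs <;> omega⟩
  invol x := by
    apply Fin.ext
    have := x.2
    by_cases hx : (x : ℕ) % 2 = 0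
    · have h1 : ¬ ((x : ℕ) + 1) % 2 = 0 := by omega
      simp [hx, h1]
    · have h1 : ((x : ℕ) - 1) % 2 = 0 := by omega
      simp [hx, h1]
      omega
  noFix x h := by
    have h' := congrArg Fin.val h
    simp only at h'
    split_ifs at h' <;> omega
  noncross x y h := by
    obtain ⟨h1, h2, h3⟩ := h
    rw [Fin.lt_def] at h1 h2 h3
    simp only at h1 h2 h3
    split_ifs at h2 h3 <;> omega

/-- The matching `{1,2}, {3,4}, …, {2n-1,0}`: all edges have length `0`. -/
def M1 (n : ℕ) : NCMatching n where
  partner x := ⟨if (x : ℕ) % 2 = 1 then (if (x : ℕ) + 1 = 2 * n then 0 else x + 1)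
      else (if (x : ℕ) = 0 then 2 * n - 1 else x - 1), by have := x.2; split_ifs <;> omega⟩
  invol x := by
    apply Fin.ext
    have := x.2
    by_cases hx : (x : ℕ) % 2 = 1
    · by_cases h2 : (x : ℕ) + 1 = 2 * n
      · simp only [hx, h2, if_true]
        rw [if_neg (by omega)]
        omega
      · simp only [hx, h2, if_true, if_false]
        rw [if_neg (by omega), if_neg (by omega)]
        omega
    · by_cases h0 : (x : ℕ) = 0
      · simp only [hx, h0, if_true, if_false]
        rw [if_neg (show ¬ (0 % 2 = 1) by omega), if_pos (by omega), if_pos (by omega)]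
      · simp only [hx, h0, if_false]
        rw [if_pos (by omega), if_neg (by omega)]
        omega
  noFix x h := by
    have h' := congrArg Fin.val h
    have := x.2
    simp only at h'
    split_ifs at h' <;> omega
  noncross x y h := by
    obtain ⟨h1, h2, h3⟩ := h
    rw [Fin.lt_def] at h1 h2 h3
    have := x.2
    have := y.2
    simp only at h1 h2 h3
    split_ifs at h2 h3 <;> omega

theorem sum_even (n : ℕ) (k : ℤ) :
    ∑ x : Fin (2 * n), (if (x : ℕ) % 2 = 0 then k else 0) = n * k := by
  rw [Fin.sum_univ_eq_sum_range (fun x : ℕ => if x % 2 = 0 then k else 0) (2 * n)]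
  induction n with
  | zero => simp
  | succ m ih =>
    rw [show 2 * (m + 1) = 2 * m + 1 + 1 by ring, Finset.sum_range_succ, Finset.sum_range_succ, ih,
      if_pos (by omega), if_neg (by omega)]
    push_cast
    ring

theorem Psi_M0 {n : ℕ} (hn : 3 ≤ n) : Psi (M0 n) = n * (3 * n - 7) := by
  rw [← sum_even]
  unfold Psi
  apply Finset.sum_congr rfl
  intro x _
  by_cases hx : (x : ℕ) % 2 = 0
  · rw [if_pos hx]
    have hp : ((M0 n).partner x : ℕ) = x + 1 := by simp [M0, hx]
    rw [hp, V_lt hx (by omega), W_lt (by push_cast; omega)]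
    push_cast
    ring
  · rw [if_neg hx, V_odd (by omega)]

theorem Psi_M1 {n : ℕ} (hn : 3 ≤ n) : Psi (M1 n) = n * (-(3 * n - 7)) := by
  rw [← sum_even]
  unfold Psi
  apply Finset.sum_congr rfl
  intro x _
  by_cases hx : (x : ℕ) % 2 = 0
  · rw [if_pos hx]
    by_cases h0 : (x : ℕ) = 0
    · have hp : ((M1 n).partner x : ℕ) = 2 * n - 1 := by simp [M1, h0]
      rw [hp, V_lt hx (by omega)]
      have e : ((2 * n - 1 : ℕ) : ℤ) - ((x : ℕ) : ℤ) = 2 * n - 1 := by
        rw [h0]; push_cast [Nat.cast_sub (show 1 ≤ 2 * n by omega)]; ring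
      rw [e, W_neg, W_lt (by omega)]
      ring
    · have hp : ((M1 n).partner x : ℕ) = x - 1 := by
        simp [M1, h0, hx]
      rw [hp, V_gt hx (by omega)]
      have e : ((x : ℕ) : ℤ) - (((x : ℕ) - 1 : ℕ) : ℤ) = 1 := by
        push_cast [Nat.cast_sub (show 1 ≤ (x : ℕ) by omega)]; ring
      rw [e, W_lt (by omega)]
      ring
  · rw [if_neg hx, V_odd (by omega)]

/-- Lower bound `3n - 7` for the distance of the two matchings with all lengths `0`, hence for
the diameter of the centered-flip graph. -/
theorem result (n : ℕ) (hn : 3 ≤ n) (_hodd : Odd n) :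
    (∀ w : (H n).Walk (M0 n) (M1 n), 3 * n - 7 ≤ w.length) ∧
    ((3 * n - 7 : ℕ) : ℕ∞) ≤ (H n).edist (M0 n) (M1 n) ∧
    ((3 * n - 7 : ℕ) : ℕ∞) ≤ (H n).ediam := by
  have key : ∀ w : (H n).Walk (M0 n) (M1 n), 3 * n - 7 ≤ w.length := by
    intro w
    have h := walk_bound w.reverse
    rw [Psi_M0 hn, Psi_M1 hn, SimpleGraph.Walk.length_reverse] at h
    have hn' : (0 : ℤ) < n := by exact_mod_cast (by omega : 0 < n)
    have h2 : (3 * (n : ℤ) - 7) ≤ w.length := by
      by_contra hc
      push Not at hc
      nlinarith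
    omega
  have key2 : ((3 * n - 7 : ℕ) : ℕ∞) ≤ (H n).edist (M0 n) (M1 n) := by
    unfold SimpleGraph.edist
    apply le_iInf
    intro w
    exact_mod_cast key w
  exact ⟨key, key2, key2.trans SimpleGraph.edist_le_ediam⟩

end Pool.Agent.Results.MP_717b2e_co.DiameterLowerBound
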